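import Pool.Agent.Q295.KG.Basic

set_option autoImplicit false

namespace Pool.Agent.Results.MP_0fcc2a_co.EqualCliques

open Finset Pool.Agent.Q295.KG

/-- `r` is the Ramsey number `r(K_3,H)`. -/
def IsRamseyNumber {V : Type} (H : SimpleGraph V) (r : ℕ) : Prop :=
  IsLeast {N | Forces H N} r

/-- `G`, on `n` vertices, is connected and `K_3`-good: `r(K_3,G) = 2n - 1`. -/
def IsConnectedGood {n : ℕ} (G : SimpleGraph (Fin n)) : Prop :=
  G.Connected ∧ IsRamseyNumber G (2 * n - 1)

/-- `q = g(K_3,n)`: the largest number of edges of a connected `K_3`-good graph on `n` vertices. -/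
def IsG (n q : ℕ) : Prop :=
  IsGreatest {q | ∃ G : SimpleGraph (Fin n), IsConnectedGood G ∧ G.edgeSet.ncard = q} q

/-- The graph `t K_s`: the disjoint union of `t` complete graphs of order `s`, the cliques being
the `t` blocks of `s` consecutive vertices. -/
def copies (t s : ℕ) : SimpleGraph (Fin (t * s)) where
  Adj i j := i ≠ j ∧ i.val / s = j.val / s
  symm := ⟨fun _ _ h => ⟨h.1.symm, h.2.symm⟩⟩
  loopless := ⟨fun _ h => h.1 rfl⟩

/-- `e = e_1(n) = n - 1 + max {t * C(s,2) : t, s ≥ 1, r(K_3, t K_s) ≤ n - 1}`. -/
def IsE1 (n e : ℕ) : Prop :=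
  IsGreatest {e | ∃ t s r : ℕ, 1 ≤ t ∧ 1 ≤ s ∧ IsRamseyNumber (copies t s) r ∧ r ≤ n - 1 ∧
    e = n - 1 + t * s.choose 2} e

/-! ### Tools -/

theorem good_of_forces {n : ℕ} (hn : 1 ≤ n) (G : SimpleGraph (Fin n)) (hG : G.Connected)
    (h : Forces G (2 * n - 1)) : IsConnectedGood G := by
  refine ⟨hG, h, ?_⟩
  intro N hN
  by_contra hcon
  exact not_forces_connected G hG hn (Forces.mono hN (by omega))

theorem copies_le {t s N : ℕ} (ht : 1 ≤ t) (hs : 1 ≤ s) (h : Forces (copies t s) N) :
    t * s + s ≤ N + 1 := by
  classical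
  let R : SimpleGraph (Fin N) :=
    { Adj := fun x y => ¬ (x.val < s - 1 ↔ y.val < s - 1)
      symm := ⟨fun x y h h' => h (by tauto)⟩
      loopless := ⟨fun x h => h Iff.rfl⟩ }
  have hR : R.CliqueFree 3 := by
    intro S hS
    rw [SimpleGraph.is3Clique_iff] at hS
    obtain ⟨a, b, c, h1, h2, h3, -⟩ := hS
    have h1' : ¬ (a.val < s - 1 ↔ b.val < s - 1) := h1
    have h2' : ¬ (a.val < s - 1 ↔ c.val < s - 1) := h2
    have h3' : ¬ (b.val < s - 1 ↔ c.val < s - 1) := h3
    tauto
  obtain ⟨f, hf, hadj⟩ := h R hR
  have hside : ∀ i j : Fin (t * s), i.val / s = j.val / s →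
      ((f i).val < s - 1 ↔ (f j).val < s - 1) := by
    intro i j hij
    by_cases h1 : i = j
    · rw [h1]
    · exact not_not.1 (hadj i j ⟨h1, hij⟩)
  have hbig : ∀ i, ¬ (f i).val < s - 1 := by
    intro i hi
    have hq : i.val / s < t := (Nat.div_lt_iff_lt_mul (by omega)).2 i.isLt
    have hlt : ∀ r : ℕ, r < s → i.val / s * s + r < t * s := by
      intro r hr
      have : (i.val / s + 1) * s ≤ t * s := Nat.mul_le_mul_right _ hq
      rw [add_mul, one_mul] at this
      omega
    have hc : (range s).card ≤ (range (s - 1)).card := by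
      refine card_le_card_of_injOn
        (fun r => if hr : r < s then (f ⟨i.val / s * s + r, hlt r hr⟩).val else 0) ?_ ?_
      · intro r hr
        rw [coe_range, Set.mem_Iio] at hr
        simp only [coe_range, Set.mem_Iio, hr, dif_pos]
        refine (hside i _ ?_).1 hi
        show i.val / s = (i.val / s * s + r) / s
        rw [Nat.add_div_of_dvd_right (Dvd.intro_left _ rfl), Nat.mul_div_cancel _ (by omega),
          Nat.div_eq_of_lt hr, add_zero]
      · intro r hr r' hr' hrr
        rw [coe_range, Set.mem_Iio] at hr hr'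
        simp only [hr, hr', dif_pos] at hrr
        have := congrArg Fin.val (hf (Fin.ext hrr))
        simp only at this
        omega
    rw [card_range, card_range] at hc
    omega
  have hc : (univ : Finset (Fin (t * s))).card ≤ (range (N - (s - 1))).card := by
    refine card_le_card_of_injOn (fun i => (f i).val - (s - 1)) ?_ ?_
    · intro i _
      simp only [coe_range, Set.mem_Iio]
      have h1 := hbig i
      have h2 := (f i).isLt
      omega
    · intro i _ j _ hij
      simp only at hij
      have h1 := hbig i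
      have h2 := hbig j
      exact hf (Fin.ext (by omega))
  rw [card_univ, Fintype.card_fin, card_range] at hc
  have hpos : 1 ≤ t * s := Nat.mul_pos ht hs
  omega

/-- The disjoint union of cliques given by a labelling. -/
def cluster {m : ℕ} (l : Fin m → ℕ) : SimpleGraph (Fin m) where
  Adj i j := i ≠ j ∧ l i = l j
  symm := ⟨fun _ _ h => ⟨h.1.symm, h.2.symm⟩⟩
  loopless := ⟨fun _ h => h.1 rfl⟩

theorem two_choose (s : ℕ) : 2 * s.choose 2 = s * (s - 1) := by
  rw [Nat.choose_two_right]
  exact Nat.mul_div_cancel' (even_iff_two_dvd.1 (Nat.even_mul_pred_self s))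

theorem case_one {m t s : ℕ} (hm : 3 ≤ m) (hs : 2 ≤ s) (h : Forces (copies t s) m)
    (hle : t * s + 2 ≤ m) :
    ∃ G : SimpleGraph (Fin (m + 1)), IsConnectedGood G ∧ m + t * s.choose 2 < G.edgeSet.ncard := by
  classical
  let l : Fin m → ℕ := fun i => if i.val < t * s then i.val / s else
    if i.val < t * s + 2 then t else t + 1 + i.val
  have hdiv : ∀ i : ℕ, i < t * s → i / s < t := fun i hi =>
    (Nat.div_lt_iff_lt_mul (by omega)).2 hi
  have hl1 : ∀ i : Fin m, i.val < t * s → l i = i.val / s := fun i hi => by simp [l, hi]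
  have hl2 : ∀ i : Fin m, ¬ i.val < t * s → i.val < t * s + 2 → l i = t :=
    fun i hi hi' => by simp [l, hi, hi']
  have hl3 : ∀ i : Fin m, ¬ i.val < t * s + 2 → l i = t + 1 + i.val := fun i hi => by
    have : ¬ i.val < t * s := by omega
    simp [l, hi, this]
  have hforce : Forces (cluster l) (m + 1) := by
    intro R hR
    obtain ⟨f0, hf0, hadj0⟩ := (Forces.mono h (Nat.le_succ m)) R hR
    have hcard : (univ \ univ.image f0).card = m + 1 - t * s := by
      rw [card_sdiff_of_subset (subset_univ _), card_univ, Fintype.card_fin,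
        card_image_of_injective _ hf0, card_univ, Fintype.card_fin]
    obtain ⟨x, hx, y, hy, hxy, hxyR⟩ := pair_of_three R hR (univ \ univ.image f0) (by omega)
    rw [mem_sdiff, mem_image] at hx hy
    have hx' : ∀ a, f0 a ≠ x := fun a ha => hx.2 ⟨a, mem_univ _, ha⟩
    have hy' : ∀ a, f0 a ≠ y := fun a ha => hy.2 ⟨a, mem_univ _, ha⟩
    let f : Fin m → Fin (m + 1) := fun i =>
      if hi : i.val < t * s then f0 ⟨i.val, hi⟩ else if i.val = t * s then x else y
    obtain ⟨g, hg, hgf⟩ := extend_inj (Nat.le_succ m) f
      (univ.filter (fun i => i.val < t * s + 2)) (by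
        intro i hi j hj hij
        simp only [coe_filter, mem_univ, true_and, Set.mem_ofPred_eq] at hi hj
        simp only [f] at hij
        by_cases h1 : i.val < t * s
        · by_cases h2 : j.val < t * s
          · rw [dif_pos h1, dif_pos h2] at hij
            have := congrArg Fin.val (hf0 hij)
            exact Fin.ext this
          · rw [dif_pos h1, dif_neg h2] at hij
            by_cases h3 : j.val = t * s
            · rw [if_pos h3] at hij
              exact absurd hij (hx' _)
            · rw [if_neg h3] at hij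
              exact absurd hij (hy' _)
        · by_cases h2 : j.val < t * s
          · rw [dif_neg h1, dif_pos h2] at hij
            by_cases h3 : i.val = t * s
            · rw [if_pos h3] at hij
              exact absurd hij.symm (hx' _)
            · rw [if_neg h3] at hij
              exact absurd hij.symm (hy' _)
          · rw [dif_neg h1, dif_neg h2] at hij
            by_cases h3 : i.val = t * s <;> by_cases h4 : j.val = t * s
            · exact Fin.ext (h3.trans h4.symm)
            · rw [if_pos h3, if_neg h4] at hij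
              exact absurd hij hxy
            · rw [if_neg h3, if_pos h4] at hij
              exact absurd hij.symm hxy
            · exact Fin.ext (by omega))
    refine ⟨g, hg, ?_⟩
    rintro i j ⟨hij, hlij⟩
    have hij' : i.val ≠ j.val := fun h => hij (Fin.ext h)
    by_cases h1 : i.val < t * s
    · have h2 : j.val < t * s := by
        by_contra h2
        rw [hl1 i h1] at hlij
        have h3 := hdiv i.val h1
        by_cases h4 : j.val < t * s + 2
        · rw [hl2 j h2 h4] at hlij
          omega
        · rw [hl3 j h4] at hlij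
          omega
      rw [hl1 i h1, hl1 j h2] at hlij
      have hi' : i ∈ univ.filter (fun i : Fin m => i.val < t * s + 2) := by
        simp only [mem_filter, mem_univ, true_and]
        omega
      have hj' : j ∈ univ.filter (fun i : Fin m => i.val < t * s + 2) := by
        simp only [mem_filter, mem_univ, true_and]
        omega
      rw [hgf i hi', hgf j hj']
      simp only [f]
      rw [dif_pos h1, dif_pos h2]
      exact hadj0 _ _ ⟨fun h => hij' (by have h' := congrArg Fin.val h; exact h'), hlij⟩
    · have h2 : ¬ j.val < t * s := by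
        intro h2
        rw [hl1 j h2] at hlij
        have h3 := hdiv j.val h2
        by_cases h4 : i.val < t * s + 2
        · rw [hl2 i h1 h4] at hlij
          omega
        · rw [hl3 i h4] at hlij
          omega
      have h5 : i.val < t * s + 2 := by
        by_contra h5
        rw [hl3 i h5] at hlij
        by_cases h6 : j.val < t * s + 2
        · rw [hl2 j h2 h6] at hlij
          omega
        · rw [hl3 j h6] at hlij
          omega
      have h6 : j.val < t * s + 2 := by
        by_contra h6
        rw [hl3 j h6, hl2 i h1 h5] at hlij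
        omega
      rw [hgf i (by simp only [mem_filter, mem_univ, true_and]; exact h5),
        hgf j (by simp only [mem_filter, mem_univ, true_and]; exact h6)]
      simp only [f]
      rw [dif_neg h1, dif_neg h2]
      by_cases h3 : i.val = t * s
      · rw [if_pos h3, if_neg (by omega)]
        exact hxyR
      · rw [if_neg h3, if_pos (by omega)]
        exact fun h => hxyR h.symm
  refine ⟨cone (cluster l), good_of_forces (by omega) _ (cone_connected _) ?_, ?_⟩
  · have h1 := cone_forces hm (cluster l) hforce
    have h2 : 2 * (m + 1) - 1 = 2 * m + 1 := by omega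
    rw [h2]
    exact h1
  · refine lt_of_lt_of_le ?_ (cone_edges (cluster l))
    have h1 := two_mul_ncard (cluster l)
    -- degrees
    have hdeg1 : ∀ v : Fin m, v.val < t * s →
        s - 1 ≤ (univ.filter ((cluster l).Adj v)).card := by
      intro v hv
      have hq := hdiv v.val hv
      have hlt : ∀ r : ℕ, r < s → v.val / s * s + r < t * s := by
        intro r hr
        have : (v.val / s + 1) * s ≤ t * s := Nat.mul_le_mul_right _ hq
        rw [add_mul, one_mul] at this
        omega
      have h2 : ((range s).erase (v.val % s)).card ≤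
          (univ.filter ((cluster l).Adj v)).card := by
        refine card_le_card_of_injOn (fun r => if hr : r < s then
          (⟨v.val / s * s + r, by have := hlt r hr; omega⟩ : Fin m) else v) ?_ ?_
        · intro r hr
          rw [mem_coe, mem_erase, mem_range] at hr
          obtain ⟨hr1, hr⟩ := hr
          simp only [hr, dif_pos, coe_filter, mem_univ, true_and, Set.mem_ofPred_eq]
          refine ⟨?_, ?_⟩
          · intro h3
            have h4 := congrArg Fin.val h3
            simp only at h4
            have h5 := Nat.div_add_mod v.val s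
            rw [mul_comm] at h5
            omega
          · rw [hl1 v hv, hl1 _ (hlt r hr)]
            show v.val / s = (v.val / s * s + r) / s
            rw [Nat.add_div_of_dvd_right (Dvd.intro_left _ rfl), Nat.mul_div_cancel _ (by omega),
              Nat.div_eq_of_lt hr, add_zero]
        · intro r hr r' hr' hrr
          rw [mem_coe, mem_erase, mem_range] at hr hr'
          simp only [hr.2, hr'.2, dif_pos] at hrr
          have := congrArg Fin.val hrr
          simp only at this
          omega
      rw [card_erase_of_mem (mem_range.2 (Nat.mod_lt _ (by omega))), card_range] at h2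
      exact h2
    have hdeg2 : ∀ v : Fin m, ¬ v.val < t * s → v.val < t * s + 2 →
        1 ≤ (univ.filter ((cluster l).Adj v)).card := by
      intro v hv hv'
      refine card_pos.2 ⟨⟨if v.val = t * s then t * s + 1 else t * s, ?_⟩, ?_⟩
      · split_ifs <;> omega
      · simp only [mem_filter, mem_univ, true_and]
        refine ⟨?_, ?_⟩
        · intro h3
          have h4 := congrArg Fin.val h3
          simp only at h4
          split_ifs at h4 <;> omega
        · rw [hl2 v hv hv', hl2]
          · simp only
            split_ifs <;> omega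
          · simp only
            split_ifs <;> omega
    have hsum : t * s * (s - 1) + 2 ≤ ∑ v, (univ.filter ((cluster l).Adj v)).card := by
      have h2 : ∑ v : Fin m, ((if v.val < t * s then s - 1 else 0) +
          (if ¬ v.val < t * s ∧ v.val < t * s + 2 then 1 else 0)) ≤
          ∑ v, (univ.filter ((cluster l).Adj v)).card := by
        refine sum_le_sum ?_
        intro v _
        by_cases h3 : v.val < t * s
        · have := hdeg1 v h3
          simp only [h3, if_true, not_true, false_and, if_false, add_zero]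
          exact this
        · by_cases h4 : v.val < t * s + 2
          · have := hdeg2 v h3 h4
            simp only [h3, if_false, not_false_iff, h4, true_and, if_true, zero_add]
            exact this
          · simp [h3, h4]
      refine le_trans (le_of_eq ?_) h2
      rw [sum_add_distrib, ← sum_filter, ← sum_filter, sum_const, sum_const, smul_eq_mul,
        smul_eq_mul, mul_one]
      have h3 : (univ.filter (fun v : Fin m => v.val < t * s)).card = t * s := by
        have : (univ.filter (fun v : Fin m => v.val < t * s)).card = (range (t * s)).card := by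
          refine card_bij (fun v _ => v.val) ?_ ?_ ?_
          · intro v hv
            simpa using hv
          · intro v _ w _ h
            exact Fin.ext h
          · intro b hb
            rw [mem_range] at hb
            exact ⟨⟨b, by omega⟩, by simpa using hb, rfl⟩
        rw [this, card_range]
      have h4 : (univ.filter (fun v : Fin m => ¬ v.val < t * s ∧ v.val < t * s + 2)).card = 2 := by
        rw [card_eq_two]
        refine ⟨⟨t * s, by omega⟩, ⟨t * s + 1, by omega⟩, ?_, ?_⟩
        · intro h
          have := congrArg Fin.val h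
          simp at this
        · ext v
          simp only [mem_filter, mem_univ, true_and, mem_insert, mem_singleton, Fin.ext_iff]
          omega
      rw [h3, h4]
    have h3 : t * s * (s - 1) = 2 * (t * s.choose 2) := by
      rw [mul_assoc, ← two_choose]
      ring
    omega

theorem case_two {m t : ℕ} (ht : 2 ≤ t) (h : Forces (copies t 2) m) (hle : m = 2 * t + 1) :
    ∃ G : SimpleGraph (Fin (m + 1)), IsConnectedGood G ∧ m + t < G.edgeSet.ncard := by
  classical
  obtain ⟨p, rfl⟩ : ∃ p, t = p + 2 := ⟨t - 2, by omega⟩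
  subst hle
  set m := 2 * (p + 2) + 1 with hm
  let l : Fin m → ℕ := fun i => if i.val < 2 * p then i.val / 2 else
    if i.val < 2 * p + 3 then p else p + 1
  have hforce : Forces (cluster l) (m + 1) := by
    intro R hR
    obtain ⟨f0, hf0, hadj0⟩ := (Forces.mono h (Nat.le_succ m)) R hR
    let P : Finset (Fin ((p + 2) * 2)) := univ.filter (fun i => i.val < 2 * p)
    have hP : P.card = 2 * p := by
      have : P.card = (range (2 * p)).card := by
        refine card_bij (fun v _ => v.val) ?_ ?_ ?_
        · intro v hv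
          simpa [P] using hv
        · intro v _ w _ h
          exact Fin.ext h
        · intro b hb
          rw [mem_range] at hb
          exact ⟨⟨b, by omega⟩, by simpa [P] using hb, rfl⟩
      rw [this, card_range]
    have hcard : (univ \ P.image f0).card = 6 := by
      rw [card_sdiff_of_subset (subset_univ _), card_univ, Fintype.card_fin,
        card_image_of_injective _ hf0, hP]
      omega
    obtain ⟨x, hx, y, hy, z, hz, hxy, hxz, hyz, nxy, nxz, nyz⟩ :=
      triple_of_six R hR (univ \ P.image f0) hcard.ge
    have hcard2 : ((univ \ P.image f0) \ {x, y, z}).card = 3 := by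
      rw [card_sdiff_of_subset, hcard, card_eq_three.2 ⟨x, y, z, hxy, hxz, hyz, rfl⟩]
      intro w hw
      simp only [mem_insert, mem_singleton] at hw
      rcases hw with rfl | rfl | rfl <;> assumption
    obtain ⟨a, ha, b, hb, hab, nab⟩ :=
      pair_of_three R hR ((univ \ P.image f0) \ {x, y, z}) hcard2.ge
    simp only [mem_sdiff, mem_univ, true_and, mem_image, mem_insert, mem_singleton, not_or,
      not_exists, not_and] at hx hy hz ha hb
    have hPm : ∀ i : Fin ((p + 2) * 2), i.val < 2 * p → i ∈ P := fun i hi => by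
      simp [P, hi]
    let f : Fin m → Fin (m + 1) := fun i =>
      if hi : i.val < 2 * p then f0 ⟨i.val, by omega⟩ else
        if i.val = 2 * p then x else if i.val = 2 * p + 1 then y else
          if i.val = 2 * p + 2 then z else if i.val = 2 * p + 3 then a else b
    have hfspec : ∀ i : Fin m, (∃ hi : i.val < 2 * p, f i = f0 ⟨i.val, by omega⟩) ∨
        (i.val = 2 * p ∧ f i = x) ∨ (i.val = 2 * p + 1 ∧ f i = y) ∨
        (i.val = 2 * p + 2 ∧ f i = z) ∨ (i.val = 2 * p + 3 ∧ f i = a) ∨
        (i.val = 2 * p + 4 ∧ f i = b) := by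
      intro i
      have hi := i.isLt
      simp only [f]
      by_cases h1 : i.val < 2 * p
      · left
        exact ⟨h1, by rw [dif_pos h1]⟩
      right
      rw [dif_neg h1]
      by_cases h2 : i.val = 2 * p
      · left
        exact ⟨h2, by rw [if_pos h2]⟩
      right
      rw [if_neg h2]
      by_cases h3 : i.val = 2 * p + 1
      · left
        exact ⟨h3, by rw [if_pos h3]⟩
      right
      rw [if_neg h3]
      by_cases h4 : i.val = 2 * p + 2
      · left
        exact ⟨h4, by rw [if_pos h4]⟩
      right
      rw [if_neg h4]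
      by_cases h5 : i.val = 2 * p + 3
      · left
        exact ⟨h5, by rw [if_pos h5]⟩
      right
      rw [if_neg h5]
      exact ⟨by omega, rfl⟩
    refine ⟨f, ?_, ?_⟩
    · intro i j hij
      rcases hfspec i with ⟨hi, ei⟩ | ⟨hi, ei⟩ | ⟨hi, ei⟩ | ⟨hi, ei⟩ | ⟨hi, ei⟩ | ⟨hi, ei⟩ <;>
        rcases hfspec j with ⟨hj, ej⟩ | ⟨hj, ej⟩ | ⟨hj, ej⟩ | ⟨hj, ej⟩ | ⟨hj, ej⟩ | ⟨hj, ej⟩ <;>
        rw [ei, ej] at hij
      · exact Fin.ext (by have h' := congrArg Fin.val (hf0 hij); exact h')
      · exact absurd hij (hx _ (hPm _ hi))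
      · exact absurd hij (hy _ (hPm _ hi))
      · exact absurd hij (hz _ (hPm _ hi))
      · exact absurd hij (ha.1 _ (hPm _ hi))
      · exact absurd hij (hb.1 _ (hPm _ hi))
      · exact absurd hij.symm (hx _ (hPm _ hj))
      · exact Fin.ext (hi.trans hj.symm)
      · exact absurd hij hxy
      · exact absurd hij hxz
      · exact absurd hij.symm ha.2.1
      · exact absurd hij.symm hb.2.1
      · exact absurd hij.symm (hy _ (hPm _ hj))
      · exact absurd hij.symm hxy
      · exact Fin.ext (hi.trans hj.symm)
      · exact absurd hij hyz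
      · exact absurd hij.symm ha.2.2.1
      · exact absurd hij.symm hb.2.2.1
      · exact absurd hij.symm (hz _ (hPm _ hj))
      · exact absurd hij.symm hxz
      · exact absurd hij.symm hyz
      · exact Fin.ext (hi.trans hj.symm)
      · exact absurd hij.symm ha.2.2.2
      · exact absurd hij.symm hb.2.2.2
      · exact absurd hij.symm (ha.1 _ (hPm _ hj))
      · exact absurd hij ha.2.1
      · exact absurd hij ha.2.2.1
      · exact absurd hij ha.2.2.2
      · exact Fin.ext (hi.trans hj.symm)
      · exact absurd hij hab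
      · exact absurd hij.symm (hb.1 _ (hPm _ hj))
      · exact absurd hij hb.2.1
      · exact absurd hij hb.2.2.1
      · exact absurd hij hb.2.2.2
      · exact absurd hij.symm hab
      · exact Fin.ext (hi.trans hj.symm)
    · rintro i j ⟨hij, hlij⟩
      have hij' : i.val ≠ j.val := fun h => hij (Fin.ext h)
      simp only [l] at hlij
      rcases hfspec i with ⟨hi, ei⟩ | ⟨hi, ei⟩ | ⟨hi, ei⟩ | ⟨hi, ei⟩ | ⟨hi, ei⟩ | ⟨hi, ei⟩ <;>
        rcases hfspec j with ⟨hj, ej⟩ | ⟨hj, ej⟩ | ⟨hj, ej⟩ | ⟨hj, ej⟩ | ⟨hj, ej⟩ | ⟨hj, ej⟩ <;>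
        rw [ei, ej] <;>
        first
        | exact nxy
        | exact nxz
        | exact nyz
        | exact nab
        | exact fun h => nxy h.symm
        | exact fun h => nxz h.symm
        | exact fun h => nyz h.symm
        | exact fun h => nab h.symm
        | (exfalso; split_ifs at hlij <;> omega)
        | (refine hadj0 _ _ ⟨fun h => hij' (by have h' := congrArg Fin.val h; exact h'), ?_⟩
           rw [if_pos hi, if_pos hj] at hlij
           exact hlij)
  refine ⟨cone (cluster l), good_of_forces (by omega) _ (cone_connected _) ?_, ?_⟩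
  · have h1 := cone_forces (by omega) (cluster l) hforce
    have h2 : 2 * (m + 1) - 1 = 2 * m + 1 := by omega
    rw [h2]
    exact h1
  · refine lt_of_lt_of_le ?_ (cone_edges (cluster l))
    have h1 := two_mul_ncard (cluster l)
    have hdeg1 : ∀ v : Fin m, 1 ≤ (univ.filter ((cluster l).Adj v)).card := by
      intro v
      have hv := v.isLt
      have : ∃ w : Fin m, (cluster l).Adj v w := by
        by_cases h2 : v.val < 2 * p
        · refine ⟨⟨if v.val % 2 = 0 then v.val + 1 else v.val - 1, by split_ifs <;> omega⟩,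
            ?_, ?_⟩
          · intro h3
            have h4 := congrArg Fin.val h3
            simp only at h4
            split_ifs at h4 <;> omega
          · simp only [l, h2, if_true]
            by_cases h5 : v.val % 2 = 0
            · simp only [h5, if_true]
              rw [if_pos (by omega)]
              omega
            · simp only [h5, if_false]
              rw [if_pos (by omega)]
              omega
        · by_cases h3 : v.val < 2 * p + 3
          · refine ⟨⟨if v.val = 2 * p then 2 * p + 1 else 2 * p, by split_ifs <;> omega⟩,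
              ?_, ?_⟩
            · intro h3
              have h4 := congrArg Fin.val h3
              simp only at h4
              split_ifs at h4 <;> omega
            · simp only [l, h2, h3, if_false, if_true]
              by_cases h5 : v.val = 2 * p
              · simp [h5]
              · simp [h5]
          · refine ⟨⟨if v.val = 2 * p + 3 then 2 * p + 4 else 2 * p + 3,
              by split_ifs <;> omega⟩, ?_, ?_⟩
            · intro h3
              have h4 := congrArg Fin.val h3
              simp only at h4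
              split_ifs at h4 <;> omega
            · simp only [l, h2, h3, if_false]
              by_cases h5 : v.val = 2 * p + 3
              · simp [h5]
              · simp [h5]
      obtain ⟨w, hw⟩ := this
      exact card_pos.2 ⟨w, by simpa using hw⟩
    have hdeg2 : ∀ v : Fin m, ¬ v.val < 2 * p → v.val < 2 * p + 3 →
        2 ≤ (univ.filter ((cluster l).Adj v)).card := by
      intro v h2 h3
      have h4 : (({⟨2 * p, by omega⟩, ⟨2 * p + 1, by omega⟩, ⟨2 * p + 2, by omega⟩} :
          Finset (Fin m)).erase v) ⊆ univ.filter ((cluster l).Adj v) := by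
        intro w hw
        rw [mem_erase, mem_insert, mem_insert, mem_singleton] at hw
        simp only [mem_filter, mem_univ, true_and]
        refine ⟨hw.1.symm, ?_⟩
        have h5 : ¬ w.val < 2 * p ∧ w.val < 2 * p + 3 := by
          rcases hw.2 with h | h | h <;> rw [h] <;> simp only <;> omega
        simp [l, h2, h3, h5.1, h5.2]
      have h5 := card_le_card h4
      have h6 : ({⟨2 * p, by omega⟩, ⟨2 * p + 1, by omega⟩, ⟨2 * p + 2, by omega⟩} :
          Finset (Fin m)).card = 3 := by
        rw [card_eq_three]
        refine ⟨_, _, _, ?_, ?_, ?_, rfl⟩ <;> simp [Fin.ext_iff]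
      have h7 := pred_card_le_card_erase (s := ({⟨2 * p, by omega⟩, ⟨2 * p + 1, by omega⟩,
        ⟨2 * p + 2, by omega⟩} : Finset (Fin m))) (a := v)
      omega
    have hsum : m + 3 ≤ ∑ v, (univ.filter ((cluster l).Adj v)).card := by
      have h2 : ∑ v : Fin m, (1 +
          (if ¬ v.val < 2 * p ∧ v.val < 2 * p + 3 then 1 else 0)) ≤
          ∑ v, (univ.filter ((cluster l).Adj v)).card := by
        refine sum_le_sum ?_
        intro v _
        by_cases h3 : ¬ v.val < 2 * p ∧ v.val < 2 * p + 3
        · rw [if_pos h3]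
          exact hdeg2 v h3.1 h3.2
        · rw [if_neg h3]
          exact hdeg1 v
      refine le_trans (le_of_eq ?_) h2
      rw [sum_add_distrib, ← sum_filter, sum_const, sum_const, smul_eq_mul,
        smul_eq_mul, mul_one, mul_one, card_univ, Fintype.card_fin]
      have h4 : (univ.filter (fun v : Fin m => ¬ v.val < 2 * p ∧ v.val < 2 * p + 3)).card = 3 := by
        rw [card_eq_three]
        refine ⟨⟨2 * p, by omega⟩, ⟨2 * p + 1, by omega⟩, ⟨2 * p + 2, by omega⟩, ?_, ?_, ?_, ?_⟩
        · simp [Fin.ext_iff]
        · simp [Fin.ext_iff]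
        · simp [Fin.ext_iff]
        · ext v
          simp only [mem_filter, mem_univ, true_and, mem_insert, mem_singleton, Fin.ext_iff]
          omega
      rw [h4]
    omega

/-- `K_4` minus an edge. -/
def K4e : SimpleGraph (Fin 4) where
  Adj i j := i ≠ j ∧ i.val + j.val ≠ 1
  symm := ⟨fun _ _ h => ⟨h.1.symm, by rw [add_comm]; exact h.2⟩⟩
  loopless := ⟨fun _ h => h.1 rfl⟩

instance : DecidableRel K4e.Adj := fun i j => by
  unfold K4e
  infer_instance

/-- Four vertices with at most one edge. -/
theorem k4e_of {N : ℕ} (R : SimpleGraph (Fin N)) (a b c d : Fin N) (hab : a ≠ b) (hac : a ≠ c)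
    (had : a ≠ d) (hbc : b ≠ c) (hbd : b ≠ d) (hcd : c ≠ d) (nac : ¬ R.Adj a c)
    (nad : ¬ R.Adj a d) (nbc : ¬ R.Adj b c) (nbd : ¬ R.Adj b d) (ncd : ¬ R.Adj c d) :
    ∃ f : Fin 4 → Fin N, Function.Injective f ∧ ∀ u v, K4e.Adj u v → ¬ R.Adj (f u) (f v) := by
  refine ⟨![a, b, c, d], ?_, ?_⟩
  · intro i j hij
    fin_cases i <;> fin_cases j <;> first
      | rfl
      | exact absurd hij hab
      | exact absurd hij hac
      | exact absurd hij had
      | exact absurd hij hbc
      | exact absurd hij hbd
      | exact absurd hij hcd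
      | exact absurd hij.symm hab
      | exact absurd hij.symm hac
      | exact absurd hij.symm had
      | exact absurd hij.symm hbc
      | exact absurd hij.symm hbd
      | exact absurd hij.symm hcd
  · intro i j hij
    fin_cases i <;> fin_cases j <;> first
      | exact absurd rfl hij.1
      | exact absurd rfl hij.2
      | exact nac
      | exact nad
      | exact nbc
      | exact nbd
      | exact ncd
      | exact fun h => nac h.symm
      | exact fun h => nad h.symm
      | exact fun h => nbc h.symm
      | exact fun h => nbd h.symm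
      | exact fun h => ncd h.symm

theorem k4e_forces : Forces K4e 7 := by
  classical
  intro R hR
  have tri : ∀ a b c, R.Adj a b → R.Adj b c → ¬ R.Adj a c := fun a b c h1 h2 h3 =>
    hR _ (SimpleGraph.is3Clique_triple_iff.2 ⟨h1, h3, h2⟩)
  by_cases hA : ∃ v, 4 ≤ (univ.filter (R.Adj v)).card
  · obtain ⟨v, hv⟩ := hA
    obtain ⟨T, hTS, hT⟩ := exists_subset_card_eq hv
    have e := T.equivFinOfCardEq hT
    refine ⟨fun i => (e.symm i : Fin 7), fun i j hij => e.symm.injective (Subtype.ext hij), ?_⟩
    intro i j _ hadj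
    have h1 := (mem_filter.1 (hTS (e.symm i).2)).2
    have h2 := (mem_filter.1 (hTS (e.symm j).2)).2
    exact hR _ (SimpleGraph.is3Clique_triple_iff.2 ⟨h1, h2, hadj⟩)
  push Not at hA
  -- some vertex has degree at most 2
  obtain ⟨v, hv⟩ : ∃ v, (univ.filter (R.Adj v)).card ≤ 2 := by
    by_contra hcon
    push Not at hcon
    have h1 : ∀ v, (univ.filter (R.Adj v)).card = 3 := fun v => by
      have := hA v
      have := hcon v
      omega
    have h2 := two_mul_ncard R
    rw [sum_congr rfl (fun v _ => h1 v), sum_const, card_univ, Fintype.card_fin,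
      smul_eq_mul] at h2
    omega
  have hM : 4 ≤ ((univ.erase v).filter (fun w => ¬ R.Adj v w)).card := by
    have h3 : (univ.filter (R.Adj v)) = ((univ.erase v).filter (fun w => R.Adj v w)) := by
      ext w
      simp only [mem_filter, mem_univ, true_and, mem_erase]
      exact ⟨fun h => ⟨⟨h.ne', trivial⟩, h⟩, fun h => h.2⟩
    have h4 : ((univ.erase v).filter (fun w => R.Adj v w)).card +
        ((univ.erase v).filter (fun w => ¬ R.Adj v w)).card = (univ.erase v).card :=
      card_filter_add_card_filter_not _
    rw [card_erase_of_mem (mem_univ _), card_univ, Fintype.card_fin] at h4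
    rw [h3] at hv
    omega
  obtain ⟨M, hMS, hMc⟩ := exists_subset_card_eq hM
  have hMv : ∀ w ∈ M, w ≠ v ∧ ¬ R.Adj v w := by
    intro w hw
    have h1 := mem_filter.1 (hMS hw)
    exact ⟨(mem_erase.1 h1.1).1, h1.2⟩
  -- a non-adjacent pair in `M`
  obtain ⟨a, ha, b, hb, hab, nab⟩ := pair_of_three R hR M (by omega)
  have hM2 : (M \ {a, b}).card = 2 := by
    rw [card_sdiff_of_subset, hMc, card_pair hab]
    intro w hw
    simp only [mem_insert, mem_singleton] at hw
    rcases hw with rfl | rfl <;> assumption
  obtain ⟨c, d, hcd, hcdM⟩ := card_eq_two.1 hM2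
  have hc : c ∈ M \ {a, b} := by rw [hcdM]; simp
  have hd : d ∈ M \ {a, b} := by rw [hcdM]; simp
  simp only [mem_sdiff, mem_insert, mem_singleton, not_or] at hc hd
  obtain ⟨hc, hca, hcb⟩ := hc
  obtain ⟨hd, hda, hdb⟩ := hd
  obtain ⟨hav, nva⟩ := hMv a ha
  obtain ⟨hbv, nvb⟩ := hMv b hb
  obtain ⟨hcv, nvc⟩ := hMv c hc
  obtain ⟨hdv, nvd⟩ := hMv d hd
  by_cases h1 : R.Adj a c
  swap
  · -- `a` is adjacent to neither `b` nor `c`
    exact k4e_of R b c v a (Ne.symm hcb) hbv hab.symm hcv hca hav.symm (fun h => nvb h.symm)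
        (fun h => nab h.symm) (fun h => nvc h.symm) (fun h => h1 h.symm) nva
  by_cases h2 : R.Adj b c
  swap
  · exact k4e_of R a c v b (Ne.symm hca) hav hab hcv hcb hbv.symm (fun h => nva h.symm)
        nab (fun h => nvc h.symm) (fun h => h2 h.symm) nvb
  by_cases h3 : R.Adj a d
  swap
  · exact k4e_of R b d v a (Ne.symm hdb) hbv hab.symm hdv hda hav.symm (fun h => nvb h.symm)
        (fun h => nab h.symm) (fun h => nvd h.symm) (fun h => h3 h.symm) nva
  by_cases h4 : R.Adj b d
  swap
  · exact k4e_of R a d v b (Ne.symm hda) hav hab hdv hdb hbv.symm (fun h => nva h.symm)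
        nab (fun h => nvd h.symm) (fun h => h4 h.symm) nvb
  have ncd : ¬ R.Adj c d := tri c a d h1.symm h3
  -- a further vertex
  obtain ⟨x, hx⟩ : ∃ x, x ∉ insert v M := by
    by_contra hcon
    push Not at hcon
    have h5 : (univ : Finset (Fin 7)).card ≤ (insert v M).card :=
      card_le_card (fun x _ => hcon x)
    have h6 := card_insert_le v M
    rw [card_univ, Fintype.card_fin] at h5
    omega
  rw [mem_insert, not_or] at hx
  obtain ⟨hxv, hxM⟩ := hx
  have hxa : x ≠ a := fun h => hxM (h ▸ ha)
  have hxb : x ≠ b := fun h => hxM (h ▸ hb)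
  have hxc : x ≠ c := fun h => hxM (h ▸ hc)
  have hxd : x ≠ d := fun h => hxM (h ▸ hd)
  by_cases h5 : R.Adj x a ∨ R.Adj x b
  · have h6 : ¬ R.Adj x c := by
      rcases h5 with h5 | h5
      · exact tri x a c h5 h1
      · exact tri x b c h5 h2
    have h7 : ¬ R.Adj x d := by
      rcases h5 with h5 | h5
      · exact tri x a d h5 h3
      · exact tri x b d h5 h4
    exact k4e_of R x v c d hxv hxc hxd hcv.symm hdv.symm hcd h6 h7 nvc nvd ncd
  · push Not at h5
    exact k4e_of R x v a b hxv hxa hxb hav.symm hbv.symm hab h5.1 h5.2 nva nvb nab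

theorem k4e_edges : K4e.edgeSet.ncard = 5 := by
  classical
  have h1 := two_mul_ncard K4e
  have h2 : ∑ v, (univ.filter (K4e.Adj v)).card = 10 := by decide
  omega

theorem case_three :
    ∃ G : SimpleGraph (Fin 4), IsConnectedGood G ∧ 4 < G.edgeSet.ncard := by
  refine ⟨K4e, good_of_forces (by norm_num) _ (connected_of_dominating _ 2 ?_) k4e_forces, ?_⟩
  · decide
  · rw [k4e_edges]
    norm_num

/-- The key step. -/
theorem key {m t s : ℕ} (hm : 3 ≤ m) (ht : 1 ≤ t) (hs : 2 ≤ s) (h : Forces (copies t s) m) :
    ∃ G : SimpleGraph (Fin (m + 1)), IsConnectedGood G ∧ m + t * s.choose 2 < G.edgeSet.ncard := by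
  have h1 := copies_le ht (by omega) h
  by_cases h2 : t * s + 2 ≤ m
  · exact case_one hm hs h h2
  · have hs2 : s = 2 := by omega
    subst hs2
    have h3 : m = 2 * t + 1 := by omega
    rw [show (2 : ℕ).choose 2 = 1 from rfl, mul_one]
    by_cases h4 : 2 ≤ t
    · exact case_two h4 h h3
    · have ht1 : t = 1 := by omega
      subst ht1
      subst h3
      exact case_three

/-! ### Existence and small cases -/

theorem ncard_bdd (n : ℕ) : BddAbove {q | ∃ G : SimpleGraph (Fin n), IsConnectedGood G ∧
    G.edgeSet.ncard = q} := by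
  classical
  refine ⟨Fintype.card (Sym2 (Fin n)), ?_⟩
  rintro q ⟨G, -, rfl⟩
  have h4 : G.edgeSet.ncard = G.edgeFinset.card := by
    rw [← SimpleGraph.coe_edgeFinset, Set.ncard_coe_finset]
  rw [h4]
  exact card_le_univ _

theorem ramsey_iff {V : Type} (H : SimpleGraph V) (N : ℕ) :
    (∃ r, IsRamseyNumber H r ∧ r ≤ N) ↔ Forces H N := by
  classical
  constructor
  · rintro ⟨r, hr, hrN⟩
    exact Forces.mono hr.1 hrN
  · intro h
    have hex : ∃ N, Forces H N := ⟨N, h⟩
    refine ⟨Nat.find hex, ⟨Nat.find_spec hex, fun M hM => Nat.find_min' hex hM⟩,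
      Nat.find_min' hex h⟩

theorem one_one_forces {N : ℕ} (hN : 1 ≤ N) : Forces (copies 1 1) N := by
  intro R _
  refine ⟨fun _ => ⟨0, hN⟩, ?_, ?_⟩
  · intro i j _
    exact Fin.ext (by have := i.isLt; have := j.isLt; omega)
  · intro i j h
    exact absurd (Fin.ext (by have := i.isLt; have := j.isLt; omega)) h.1

theorem one_two_forces : Forces (copies 1 2) 3 := by
  intro R hR
  obtain ⟨x, -, y, -, hxy, nxy⟩ := pair_of_three R hR univ (by simp)
  refine ⟨fun i => if i.val = 0 then x else y, ?_, ?_⟩
  · intro i j hij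
    have hi := i.isLt
    have hj := j.isLt
    simp only at hij
    by_cases h1 : i.val = 0 <;> by_cases h2 : j.val = 0
    · exact Fin.ext (h1.trans h2.symm)
    · rw [if_pos h1, if_neg h2] at hij
      exact absurd hij hxy
    · rw [if_neg h1, if_pos h2] at hij
      exact absurd hij.symm hxy
    · exact Fin.ext (by omega)
  · rintro i j ⟨hij, -⟩
    have hij' : i.val ≠ j.val := fun h => hij (Fin.ext h)
    have hi := i.isLt
    have hj := j.isLt
    simp only
    by_cases h1 : i.val = 0 <;> by_cases h2 : j.val = 0
    · omega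
    · rw [if_pos h1, if_neg h2]
      exact nxy
    · rw [if_neg h1, if_pos h2]
      exact fun h => nxy h.symm
    · omega

theorem exists_E1 {n : ℕ} (hn : 2 ≤ n) : ∃ e, IsE1 n e := by
  have hne : {e | ∃ t s r : ℕ, 1 ≤ t ∧ 1 ≤ s ∧ IsRamseyNumber (copies t s) r ∧ r ≤ n - 1 ∧
      e = n - 1 + t * s.choose 2}.Nonempty := by
    obtain ⟨r, hr, hr'⟩ := (ramsey_iff (copies 1 1) (n - 1)).2 (one_one_forces (by omega))
    exact ⟨_, 1, 1, r, le_rfl, le_rfl, hr, hr', rfl⟩
  have hbdd : BddAbove {e | ∃ t s r : ℕ, 1 ≤ t ∧ 1 ≤ s ∧ IsRamseyNumber (copies t s) r ∧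
      r ≤ n - 1 ∧ e = n - 1 + t * s.choose 2} := by
    refine ⟨n - 1 + n * (n * n), ?_⟩
    rintro e ⟨t, s, r, ht, hs, hr, hrn, rfl⟩
    have h1 := copies_le ht hs ((ramsey_iff _ _).1 ⟨r, hr, hrn⟩)
    have h2 : t ≤ t * s := Nat.le_mul_of_pos_right _ hs
    have h3 : s ≤ t * s := Nat.le_mul_of_pos_left _ ht
    have h4 : t ≤ n := by omega
    have h5 : s ≤ n := by omega
    have h6 : s.choose 2 ≤ s * s := by
      have := two_choose s
      have h7 : s * (s - 1) ≤ s * s := Nat.mul_le_mul_left _ (by omega)
      omega
    have h7 : t * s.choose 2 ≤ n * (n * n) :=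
      Nat.mul_le_mul h4 (h6.trans (Nat.mul_le_mul h5 h5))
    omega
  exact ⟨_, Nat.sSup_mem hne hbdd, fun x hx => le_csSup hbdd hx⟩

theorem good_two : IsG 2 1 := by
  classical
  constructor
  · refine ⟨⊤, good_of_forces (by norm_num) _
      (connected_of_dominating _ 0 (fun v hv => hv.symm)) ?_, ?_⟩
    · intro R hR
      obtain ⟨x, -, y, -, hxy, nxy⟩ := pair_of_three R hR univ (by simp)
      refine ⟨![x, y], ?_, ?_⟩
      · intro i j hij
        fin_cases i <;> fin_cases j <;> first
          | rfl
          | exact absurd hij hxy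
          | exact absurd hij.symm hxy
      · intro i j hij
        fin_cases i <;> fin_cases j <;> first
          | exact absurd rfl hij
          | exact nxy
          | exact fun h => nxy h.symm
    · have h1 := two_mul_ncard (⊤ : SimpleGraph (Fin 2))
      have h2 : ∑ v : Fin 2, (univ.filter ((⊤ : SimpleGraph (Fin 2)).Adj v)).card = 2 := by
        decide
      omega
  · rintro q ⟨G, -, rfl⟩
    have h1 := two_mul_ncard G
    have h2 : ∀ v : Fin 2, (univ.filter (G.Adj v)).card ≤ 1 := by
      intro v
      have h3 : univ.filter (G.Adj v) ⊆ univ.erase v := by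
        intro w hw
        rw [mem_filter] at hw
        exact mem_erase.2 ⟨hw.2.ne', mem_univ _⟩
      have := card_le_card h3
      rw [card_erase_of_mem (mem_univ _), card_univ, Fintype.card_fin] at this
      exact this
    have h3 : ∑ v : Fin 2, (univ.filter (G.Adj v)).card ≤ ∑ v : Fin 2, 1 :=
      sum_le_sum (fun v _ => h2 v)
    simp only [sum_const, card_univ, Fintype.card_fin, smul_eq_mul] at h3
    omega

theorem E1_two {e : ℕ} (h : IsE1 2 e) : e = 1 := by
  obtain ⟨⟨t, s, r, ht, hs, hr, hrn, he⟩, -⟩ := h
  have h1 := copies_le ht hs ((ramsey_iff _ _).1 ⟨r, hr, hrn⟩)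
  have h2 : s ≤ t * s := Nat.le_mul_of_pos_left _ ht
  have h3 : s = 1 := by omega
  subst h3
  simpa using he

/-- The path with two edges. -/
def P3 : SimpleGraph (Fin 3) where
  Adj i j := i ≠ j ∧ (i = 0 ∨ j = 0)
  symm := ⟨fun _ _ h => ⟨h.1.symm, h.2.symm⟩⟩
  loopless := ⟨fun _ h => h.1 rfl⟩

instance : DecidableRel P3.Adj := fun i j => by
  unfold P3
  infer_instance

theorem p3_forces : Forces P3 5 := by
  classical
  intro R hR
  by_cases hA : ∃ v, 3 ≤ (univ.filter (R.Adj v)).card
  · obtain ⟨v, hv⟩ := hA
    obtain ⟨T, hTS, hT⟩ := exists_subset_card_eq hv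
    have e := T.equivFinOfCardEq hT
    refine ⟨fun i => (e.symm i : Fin 5), fun i j hij => e.symm.injective (Subtype.ext hij), ?_⟩
    intro i j _ hadj
    have h1 := (mem_filter.1 (hTS (e.symm i).2)).2
    have h2 := (mem_filter.1 (hTS (e.symm j).2)).2
    exact hR _ (SimpleGraph.is3Clique_triple_iff.2 ⟨h1, h2, hadj⟩)
  push Not at hA
  have hv := hA 0
  have h3 : (univ.filter (R.Adj 0)) = ((univ.erase 0).filter (fun w => R.Adj 0 w)) := by
    ext w
    simp only [mem_filter, mem_univ, true_and, mem_erase]
    exact ⟨fun h => ⟨⟨h.ne', trivial⟩, h⟩, fun h => h.2⟩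
  have h4 : ((univ.erase 0).filter (fun w => R.Adj 0 w)).card +
      ((univ.erase 0).filter (fun w => ¬ R.Adj 0 w)).card = (univ.erase (0 : Fin 5)).card :=
    card_filter_add_card_filter_not _
  rw [card_erase_of_mem (mem_univ _), card_univ, Fintype.card_fin] at h4
  rw [h3] at hv
  obtain ⟨T, hTS, hT⟩ := exists_subset_card_eq
    (show 2 ≤ ((univ.erase 0).filter (fun w => ¬ R.Adj 0 w)).card by omega)
  obtain ⟨x, y, hxy, rfl⟩ := card_eq_two.1 hT
  have hx := mem_filter.1 (hTS (mem_insert_self x _))
  have hy := mem_filter.1 (hTS (show y ∈ ({x, y} : Finset _) by simp))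
  have hx0 := (mem_erase.1 hx.1).1
  have hy0 := (mem_erase.1 hy.1).1
  refine ⟨![0, x, y], ?_, ?_⟩
  · intro i j hij
    fin_cases i <;> fin_cases j <;> first
      | rfl
      | exact absurd hij hx0
      | exact absurd hij hy0
      | exact absurd hij hxy
      | exact absurd hij.symm hx0
      | exact absurd hij.symm hy0
      | exact absurd hij.symm hxy
  · intro i j hij
    fin_cases i <;> fin_cases j <;> first
      | exact absurd rfl hij.1
      | exact hx.2
      | exact hy.2
      | exact fun h => hx.2 h.symm
      | exact fun h => hy.2 h.symm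
      | (exfalso; revert hij; decide)

/-- The pentagon. -/
def C5 : SimpleGraph (Fin 5) where
  Adj a b := (a.val + 1) % 5 = b.val ∨ (b.val + 1) % 5 = a.val
  symm := ⟨fun _ _ h => h.symm⟩
  loopless := ⟨by decide⟩

instance : DecidableRel C5.Adj := fun a b => by
  unfold C5
  infer_instance

theorem c5_tri : ∀ x y z : Fin 5, ¬ (C5.Adj x y ∧ C5.Adj x z ∧ C5.Adj y z) := by
  decide

theorem c5_indep : ∀ x y z : Fin 5, x ≠ y → x ≠ z → y ≠ z →
    (C5.Adj x y ∨ C5.Adj x z ∨ C5.Adj y z) := by
  decide

theorem not_forces_top : ¬ Forces (⊤ : SimpleGraph (Fin 3)) 5 := by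
  intro h
  obtain ⟨f, hf, hadj⟩ := h C5 (by
    intro s hs
    rw [SimpleGraph.is3Clique_iff] at hs
    obtain ⟨a, b, c, h1, h2, h3, -⟩ := hs
    exact c5_tri a b c ⟨h1, h2, h3⟩)
  have h01 : (0 : Fin 3) ≠ 1 := by decide
  have h02 : (0 : Fin 3) ≠ 2 := by decide
  have h12 : (1 : Fin 3) ≠ 2 := by decide
  rcases c5_indep (f 0) (f 1) (f 2) (fun h => h01 (hf h)) (fun h => h02 (hf h))
    (fun h => h12 (hf h)) with h | h | h
  · exact hadj 0 1 h01 h
  · exact hadj 0 2 h02 h
  · exact hadj 1 2 h12 h

theorem good_three : IsG 3 2 := by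
  classical
  constructor
  · refine ⟨P3, good_of_forces (by norm_num) _ (connected_of_dominating _ 0 ?_) p3_forces, ?_⟩
    · decide
    · have h1 := two_mul_ncard P3
      have h2 : ∑ v : Fin 3, (univ.filter (P3.Adj v)).card = 4 := by
        decide
      omega
  · rintro q ⟨G, hG, rfl⟩
    by_contra hcon
    push Not at hcon
    have h1 := two_mul_ncard G
    have h2 : ∀ v : Fin 3, (univ.filter (G.Adj v)).card ≤ 2 := by
      intro v
      have h3 : univ.filter (G.Adj v) ⊆ univ.erase v := by
        intro w hw
        rw [mem_filter] at hw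
        exact mem_erase.2 ⟨hw.2.ne', mem_univ _⟩
      have := card_le_card h3
      rw [card_erase_of_mem (mem_univ _), card_univ, Fintype.card_fin] at this
      exact this
    have htop : G = ⊤ := by
      ext v w
      rw [SimpleGraph.top_adj]
      refine ⟨fun h => h.ne, fun hvw => ?_⟩
      by_contra hnot
      have h3 : (univ.filter (G.Adj v)).card ≤ 1 := by
        have h4 : univ.filter (G.Adj v) ⊆ (univ.erase v).erase w := by
          intro x hx
          rw [mem_filter] at hx
          refine mem_erase.2 ⟨?_, mem_erase.2 ⟨hx.2.ne', mem_univ _⟩⟩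
          rintro rfl
          exact hnot hx.2
        have := card_le_card h4
        rw [card_erase_of_mem (mem_erase.2 ⟨hvw.symm, mem_univ _⟩),
          card_erase_of_mem (mem_univ _), card_univ, Fintype.card_fin] at this
        exact this
      have h5 : ∑ x : Fin 3, (univ.filter (G.Adj x)).card =
          (univ.filter (G.Adj v)).card + ∑ x ∈ univ.erase v, (univ.filter (G.Adj x)).card :=
        (add_sum_erase _ _ (mem_univ v)).symm
      have h6 : ∑ x ∈ univ.erase v, (univ.filter (G.Adj x)).card ≤
          ∑ x ∈ univ.erase v, 2 := sum_le_sum (fun x _ => h2 x)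
      rw [sum_const, card_erase_of_mem (mem_univ _), card_univ, Fintype.card_fin,
        smul_eq_mul] at h6
      omega
    subst htop
    exact not_forces_top hG.2.1

theorem E1_three {e : ℕ} (h : IsE1 3 e) : e = 2 := by
  obtain ⟨⟨t, s, r, ht, hs, hr, hrn, he⟩, -⟩ := h
  have h1 := copies_le ht hs ((ramsey_iff _ _).1 ⟨r, hr, hrn⟩)
  have h2 : s ≤ t * s := Nat.le_mul_of_pos_left _ ht
  have h3 : s = 1 := by omega
  subst h3
  simpa using he

/-- For every `n ≥ 2` both `g(K_3,n)` and `e_1(n)` exist, `e_1(n) ≤ g(K_3,n)`, and equality holds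
exactly for `n = 2` and `n = 3`. -/
theorem result (n : ℕ) (hn : 2 ≤ n) :
    ∃ g e : ℕ, IsG n g ∧ IsE1 n e ∧ e ≤ g ∧ (g = e ↔ n = 2 ∨ n = 3) := by
  obtain ⟨e, he⟩ := exists_E1 hn
  by_cases h2 : n = 2
  · subst h2
    have := E1_two he
    subst this
    exact ⟨1, 1, good_two, he, le_rfl, by simp⟩
  by_cases h3 : n = 3
  · subst h3
    have := E1_three he
    subst this
    exact ⟨2, 2, good_three, he, le_rfl, by simp⟩
  obtain ⟨m, rfl⟩ : ∃ m, n = m + 1 := ⟨n - 1, by omega⟩
  have hm : 3 ≤ m := by omega
  rw [IsE1, Nat.add_sub_cancel] at he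
  obtain ⟨⟨t, s, r, ht, hs, hr, hrn, hem⟩, hmax⟩ := he
  have hforces := (ramsey_iff _ _).1 ⟨r, hr, hrn⟩
  have hs2 : 2 ≤ s := by
    by_contra hcon
    have hs1 : s = 1 := by omega
    subst hs1
    obtain ⟨r', hr', hr''⟩ := (ramsey_iff (copies 1 2) m).2 (Forces.mono one_two_forces hm)
    have h4 := hmax ⟨1, 2, r', le_rfl, by norm_num, hr', hr'', rfl⟩
    rw [show (2 : ℕ).choose 2 = 1 from rfl] at h4
    rw [show (1 : ℕ).choose 2 = 0 from rfl] at hem
    omega
  obtain ⟨G, hG, hGe⟩ := key hm ht hs2 hforces
  have hmem : G.edgeSet.ncard ∈ {q | ∃ G : SimpleGraph (Fin (m + 1)), IsConnectedGood G ∧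
      G.edgeSet.ncard = q} := ⟨G, hG, rfl⟩
  have hsup := Nat.sSup_mem ⟨_, hmem⟩ (ncard_bdd (m + 1))
  have hle := le_csSup (ncard_bdd (m + 1)) hmem
  refine ⟨_, e, ⟨hsup, fun q hq => le_csSup (ncard_bdd (m + 1)) hq⟩, ?_, ?_, ?_⟩
  · rw [IsE1, Nat.add_sub_cancel]
    exact ⟨⟨t, s, r, ht, hs, hr, hrn, hem⟩, hmax⟩
  · omega
  · constructor
    · intro h
      omega
    · intro h
      omega

end Pool.Agent.Results.MP_0fcc2a_co.EqualCliques
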